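import Pool.Agent.H140.OM.Step
import Pool.Agent.H140.OM.Shape

/-!
# A 32-omino that lies in no tiling by 32-ominoes

The definitions are in `Pool.Agent.H140.OM`: `cell`, `region`, `IsDisk`, `IsOmino` (Cells),
`Congruent` (Iso), `IsTiling` (Step), the cells `P` of the 32-omino (Shape).

The 32-omino is a ring around a `9 × 4` rectangle with a gap of one cell in the middle of the bottom
side and an inner wall of three cells hanging from the middle of the top side.  Its cavity consists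
of a door cell `(5, 1)` and two chambers of 16 cells each, which can only be entered through the door
cell.  In a tiling by 32-ominoes all cells of the cavity would be cells of aligned tiles (at every
lattice point two known cells in opposite quadrants force the cell between them), and the tile
containing the door cell would have to contain both chambers, hence at least 33 cells.
-/

namespace Pool.Agent.Results.MP_60dc17_co.CavityOmino

open Set Metric Filter Topology Pool.Agent.H140.OM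

/-- A tiling is equitransitive if any two congruent tiles are equivalent under an isometry of the
plane that maps the tiling onto itself. -/
def Equitransitive (𝒯 : Set (Set ℂ)) : Prop :=
  ∀ T ∈ 𝒯, ∀ T' ∈ 𝒯, Congruent T T' →
    ∃ g : ℂ ≃ᵢ ℂ, (fun S => g '' S) '' 𝒯 = 𝒯 ∧ g '' T = T'

lemma stepQ1 {n : ℕ} {𝒯 : Set (Set ℂ)} (h : IsTiling n 𝒯) {x y x' y' : ℤ} (hx : x' = x - 1)
    (hy : y' = y - 1) (k2 : Known n 𝒯 (x', y)) (k4 : Known n 𝒯 (x, y')) : Known n 𝒯 (x, y) := by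
  subst hx hy
  refine step h (u := 1) (Or.inl rfl) (p := (x, y)) ?_ ?_ ?_ k2 k4
  · intro X Y h1 h2 h3 h4
    refine ⟨⟨?_, ?_⟩, ?_, ?_⟩ <;> simp [pt] <;> linarith
  · intro X Y h1 h2 h3 h4
    refine ⟨⟨?_, ?_⟩, ?_, ?_⟩ <;> simp [pt] <;> linarith
  · intro X Y h1 h2 h3 h4
    refine ⟨⟨?_, ?_⟩, ?_, ?_⟩ <;> simp [pt] <;> linarith

lemma stepQ4 {n : ℕ} {𝒯 : Set (Set ℂ)} (h : IsTiling n 𝒯) {x y : ℤ} {c d : ℤ} 
    (hd : c = x - 1 ∧ d = y - 1) (k1 : Known n 𝒯 (x, y)) (k3 : Known n 𝒯 (c, d)) :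
    Known n 𝒯 (x, d) := by
  obtain ⟨rfl, rfl⟩ := hd
  refine step h (u := -Complex.I) (Or.inr (Or.inr (Or.inr rfl))) (p := (x, y)) ?_ ?_ ?_ k1 k3
  · intro X Y h1 h2 h3 h4
    refine ⟨⟨?_, ?_⟩, ?_, ?_⟩ <;> simp [pt] <;> linarith
  · intro X Y h1 h2 h3 h4
    refine ⟨⟨?_, ?_⟩, ?_, ?_⟩ <;> simp [pt] <;> linarith
  · intro X Y h1 h2 h3 h4
    refine ⟨⟨?_, ?_⟩, ?_, ?_⟩ <;> simp [pt] <;> linarith

/-- the left chamber -/
noncomputable def L₁ : Finset (ℤ × ℤ) := Finset.Icc 1 4 ×ˢ Finset.Icc 1 4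
/-- the right chamber -/
noncomputable def L₂ : Finset (ℤ × ℤ) := Finset.Icc 6 9 ×ˢ Finset.Icc 1 4

lemma adj_cases {a b : ℤ × ℤ} (h : adj a b) : b = (a.1 + 1, a.2) ∨ b = (a.1 - 1, a.2) ∨
    b = (a.1, a.2 + 1) ∨ b = (a.1, a.2 - 1) := by
  unfold adj at h
  have : (b.1 = a.1 + 1 ∧ b.2 = a.2) ∨ (b.1 = a.1 - 1 ∧ b.2 = a.2) ∨
    (b.1 = a.1 ∧ b.2 = a.2 + 1) ∨ (b.1 = a.1 ∧ b.2 = a.2 - 1) := by omega
  rcases this with h | h | h | h
  · left; exact Prod.ext h.1 h.2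
  · right; left; exact Prod.ext h.1 h.2
  · right; right; left; exact Prod.ext h.1 h.2
  · right; right; right; exact Prod.ext h.1 h.2

lemma nbr₁ : ∀ a ∈ L₁, ∀ b ∈ [(a.1 + 1, a.2), (a.1 - 1, a.2), (a.1, a.2 + 1), (a.1, a.2 - 1)],
    b ∈ L₁ ∨ b ∈ P ∨ b = (5, 1) := by decide

lemma nbr₂ : ∀ a ∈ L₂, ∀ b ∈ [(a.1 + 1, a.2), (a.1 - 1, a.2), (a.1, a.2 + 1), (a.1, a.2 - 1)],
    b ∈ L₂ ∨ b ∈ P ∨ b = (5, 1) := by decide

lemma same_tile {𝒯 : Set (Set ℂ)} (h : IsTiling 32 𝒯) {D E : Finset (ℤ × ℤ)} (hD : region D ∈ 𝒯)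
    (hE : region E ∈ 𝒯) {c : ℤ × ℤ} (h1 : c ∈ D) (h2 : c ∈ E) : region D = region E := by
  by_contra hne
  have := h.disj _ hD _ hE hne
  exact (Set.disjoint_left.1 this) (ocell_interior h1 (ctr_mem c)) (ocell_interior h2 (ctr_mem c))

lemma mem_of_region {D E : Finset (ℤ × ℤ)} (h : region D = region E) {c : ℤ × ℤ} (hc : c ∈ D) :
    c ∈ E := by
  apply ocell_region (ctr_mem c)
  rw [← h]
  exact mem_region.2 ⟨c, hc, ocell_sub c (ctr_mem c)⟩

/-- a cell of a chamber belongs to the tile of the door cell -/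
lemma chamber {𝒯 : Set (Set ℂ)} (h : IsTiling 32 𝒯) (hP : region P ∈ 𝒯) {Z : Finset (ℤ × ℤ)}
    (hZ : region Z ∈ 𝒯) (hz : (5, 1) ∈ Z) {L : Finset (ℤ × ℤ)} (hL : L.card < 32)
    (hLP : ∀ c ∈ L, c ∉ P)
    (hnbr : ∀ a ∈ L, ∀ b ∈ [(a.1 + 1, a.2), (a.1 - 1, a.2), (a.1, a.2 + 1), (a.1, a.2 - 1)],
      b ∈ L ∨ b ∈ P ∨ b = (5, 1)) {c : ℤ × ℤ} (hcL : c ∈ L) (hc : Known 32 𝒯 c) : c ∈ Z := by
  classical
  obtain ⟨D, hD, hcard, hdisk, hcD⟩ := hc
  by_cases hzD : (5, 1) ∈ D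
  · exact mem_of_region (same_tile h hD hZ hzD hz) hcD
  · exfalso
    have hDP : ∀ e ∈ D, e ∉ P := by
      intro e he heP
      have := same_tile h hD hP he heP
      exact hLP c hcL (mem_of_region this hcD)
    have hsub := disk_connected hdisk (A := D ∩ L) Finset.inter_subset_left
      ⟨c, Finset.mem_inter.2 ⟨hcD, hcL⟩⟩ (by
        intro a ha b hb hbA hadj
        rw [Finset.mem_inter] at ha
        have hb2 : b ∈ L ∨ b ∈ P ∨ b = (5, 1) := by
          apply hnbr a ha.2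
          rcases adj_cases hadj with e | e | e | e <;> simp [e]
        rcases hb2 with h1 | h1 | h1
        · exact hbA (Finset.mem_inter.2 ⟨hb, h1⟩)
        · exact hDP b hb h1
        · exact hzD (h1 ▸ hb))
    have h1 : D.card ≤ L.card :=
      Finset.card_le_card (hsub.trans Finset.inter_subset_right)
    omega

/-- the polyomino `region P` itself is not a tile of a tiling by 32-ominoes -/
theorem not_mem {𝒯 : Set (Set ℂ)} (h : IsTiling 32 𝒯) : region P ∉ 𝒯 := by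
  classical
  intro hmem
  have hP : ∀ c : ℤ × ℤ, c ∈ P → Known 32 𝒯 c := fun c hc => ⟨P, hmem, P_card, P_disk, hc⟩
  have k1_1 : Known 32 𝒯 (1, 1) := stepQ1 h (by norm_num) (by norm_num) (hP (0, 1) (by decide)) (hP (1, 0) (by decide))
  have k2_1 : Known 32 𝒯 (2, 1) := stepQ1 h (by norm_num) (by norm_num) k1_1 (hP (2, 0) (by decide))
  have k3_1 : Known 32 𝒯 (3, 1) := stepQ1 h (by norm_num) (by norm_num) k2_1 (hP (3, 0) (by decide))
  have k4_1 : Known 32 𝒯 (4, 1) := stepQ1 h (by norm_num) (by norm_num) k3_1 (hP (4, 0) (by decide))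
  have k5_1 : Known 32 𝒯 (5, 1) := stepQ4 h (x := 5) (y := 2) (by norm_num) (hP (5, 2) (by decide)) k4_1
  have k6_1 : Known 32 𝒯 (6, 1) := stepQ1 h (by norm_num) (by norm_num) k5_1 (hP (6, 0) (by decide))
  have k7_1 : Known 32 𝒯 (7, 1) := stepQ1 h (by norm_num) (by norm_num) k6_1 (hP (7, 0) (by decide))
  have k8_1 : Known 32 𝒯 (8, 1) := stepQ1 h (by norm_num) (by norm_num) k7_1 (hP (8, 0) (by decide))
  have k9_1 : Known 32 𝒯 (9, 1) := stepQ1 h (by norm_num) (by norm_num) k8_1 (hP (9, 0) (by decide))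
  have k1_2 : Known 32 𝒯 (1, 2) := stepQ1 h (by norm_num) (by norm_num) (hP (0, 2) (by decide)) k1_1
  have k2_2 : Known 32 𝒯 (2, 2) := stepQ1 h (by norm_num) (by norm_num) k1_2 k2_1
  have k3_2 : Known 32 𝒯 (3, 2) := stepQ1 h (by norm_num) (by norm_num) k2_2 k3_1
  have k4_2 : Known 32 𝒯 (4, 2) := stepQ1 h (by norm_num) (by norm_num) k3_2 k4_1
  have k6_2 : Known 32 𝒯 (6, 2) := stepQ1 h (by norm_num) (by norm_num) (hP (5, 2) (by decide)) k6_1
  have k7_2 : Known 32 𝒯 (7, 2) := stepQ1 h (by norm_num) (by norm_num) k6_2 k7_1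
  have k8_2 : Known 32 𝒯 (8, 2) := stepQ1 h (by norm_num) (by norm_num) k7_2 k8_1
  have k9_2 : Known 32 𝒯 (9, 2) := stepQ1 h (by norm_num) (by norm_num) k8_2 k9_1
  have k1_3 : Known 32 𝒯 (1, 3) := stepQ1 h (by norm_num) (by norm_num) (hP (0, 3) (by decide)) k1_2
  have k2_3 : Known 32 𝒯 (2, 3) := stepQ1 h (by norm_num) (by norm_num) k1_3 k2_2
  have k3_3 : Known 32 𝒯 (3, 3) := stepQ1 h (by norm_num) (by norm_num) k2_3 k3_2
  have k4_3 : Known 32 𝒯 (4, 3) := stepQ1 h (by norm_num) (by norm_num) k3_3 k4_2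
  have k6_3 : Known 32 𝒯 (6, 3) := stepQ1 h (by norm_num) (by norm_num) (hP (5, 3) (by decide)) k6_2
  have k7_3 : Known 32 𝒯 (7, 3) := stepQ1 h (by norm_num) (by norm_num) k6_3 k7_2
  have k8_3 : Known 32 𝒯 (8, 3) := stepQ1 h (by norm_num) (by norm_num) k7_3 k8_2
  have k9_3 : Known 32 𝒯 (9, 3) := stepQ1 h (by norm_num) (by norm_num) k8_3 k9_2
  have k1_4 : Known 32 𝒯 (1, 4) := stepQ1 h (by norm_num) (by norm_num) (hP (0, 4) (by decide)) k1_3
  have k2_4 : Known 32 𝒯 (2, 4) := stepQ1 h (by norm_num) (by norm_num) k1_4 k2_3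
  have k3_4 : Known 32 𝒯 (3, 4) := stepQ1 h (by norm_num) (by norm_num) k2_4 k3_3
  have k4_4 : Known 32 𝒯 (4, 4) := stepQ1 h (by norm_num) (by norm_num) k3_4 k4_3
  have k6_4 : Known 32 𝒯 (6, 4) := stepQ1 h (by norm_num) (by norm_num) (hP (5, 4) (by decide)) k6_3
  have k7_4 : Known 32 𝒯 (7, 4) := stepQ1 h (by norm_num) (by norm_num) k6_4 k7_3
  have k8_4 : Known 32 𝒯 (8, 4) := stepQ1 h (by norm_num) (by norm_num) k7_4 k8_3
  have k9_4 : Known 32 𝒯 (9, 4) := stepQ1 h (by norm_num) (by norm_num) k8_4 k9_3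
  obtain ⟨Z, hZ, hZc, -, hz⟩ := k5_1
  have hL1 : L₁ ⊆ Z := by
    intro c hc
    refine chamber h hmem hZ hz (L := L₁) (by decide) (by decide) nbr₁ hc ?_
    have : ∀ c ∈ L₁, c = (1, 1) ∨ c = (2, 1) ∨ c = (3, 1) ∨ c = (4, 1) ∨ c = (1, 2) ∨ c = (2, 2) ∨
        c = (3, 2) ∨ c = (4, 2) ∨ c = (1, 3) ∨ c = (2, 3) ∨ c = (3, 3) ∨ c = (4, 3) ∨ c = (1, 4) ∨
        c = (2, 4) ∨ c = (3, 4) ∨ c = (4, 4) := by decide
    rcases this c hc with rfl | rfl | rfl | rfl | rfl | rfl | rfl | rfl | rfl | rfl | rfl | rfl |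
      rfl | rfl | rfl | rfl <;> assumption
  have hL2 : L₂ ⊆ Z := by
    intro c hc
    refine chamber h hmem hZ hz (L := L₂) (by decide) (by decide) nbr₂ hc ?_
    have : ∀ c ∈ L₂, c = (6, 1) ∨ c = (7, 1) ∨ c = (8, 1) ∨ c = (9, 1) ∨ c = (6, 2) ∨ c = (7, 2) ∨
        c = (8, 2) ∨ c = (9, 2) ∨ c = (6, 3) ∨ c = (7, 3) ∨ c = (8, 3) ∨ c = (9, 3) ∨ c = (6, 4) ∨
        c = (7, 4) ∨ c = (8, 4) ∨ c = (9, 4) := by decide
    rcases this c hc with rfl | rfl | rfl | rfl | rfl | rfl | rfl | rfl | rfl | rfl | rfl | rfl |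
      rfl | rfl | rfl | rfl <;> assumption
  have hall : insert (5, 1) (L₁ ∪ L₂) ⊆ Z := by
    intro c hc
    rw [Finset.mem_insert, Finset.mem_union] at hc
    rcases hc with rfl | hc | hc
    · exact hz
    · exact hL1 hc
    · exact hL2 hc
  have h33 : (insert (5, 1) (L₁ ∪ L₂)).card = 33 := by decide
  have := Finset.card_le_card hall
  omega

/-- moving a tiling -/
lemma IsTiling.move {n : ℕ} {𝒯 : Set (Set ℂ)} (h : IsTiling n 𝒯) (g : ℂ ≃ᵢ ℂ) :
    IsTiling n ((fun S => g '' S) '' 𝒯) where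
  countable := h.countable.image _
  tile := by
    rintro _ ⟨T, hT, rfl⟩
    obtain ⟨R, hR, f, rfl⟩ := h.tile T hT
    refine ⟨R, hR, f.trans g, ?_⟩
    simp only [image_image]
    rfl
  cover := by
    rw [eq_univ_iff_forall]
    intro z
    have : g.symm z ∈ ⋃₀ 𝒯 := by rw [h.cover]; trivial
    obtain ⟨T, hT, hz⟩ := this
    exact ⟨g '' T, ⟨T, hT, rfl⟩, ⟨g.symm z, hz, by simp⟩⟩
  disj := by
    rintro _ ⟨T, hT, rfl⟩ _ ⟨T', hT', rfl⟩ hne
    have hne' : T ≠ T' := fun e => hne (by rw [e])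
    have hd := h.disj T hT T' hT' hne'
    have e : ∀ S : Set ℂ, interior (g '' S) = g '' interior S := fun S =>
      (g.toHomeomorph.image_interior S).symm
    simp only [e]
    exact (disjoint_image_iff g.injective).2 hd

/-- **Theorem.** There is a 32-omino which lies in no tiling of the plane by 32-ominoes.  In
particular, it is not true that for every `n ≥ 1` there is an equitransitive tiling of the plane by
`n`-ominoes in which every shape of `n`-omino occurs. -/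
theorem result :
    (∃ R : Set ℂ, IsOmino 32 R ∧ ∀ 𝒯 : Set (Set ℂ), IsTiling 32 𝒯 → ∀ T ∈ 𝒯, ¬ Congruent R T) ∧
    ¬ (∀ n : ℕ, 1 ≤ n → ∃ 𝒯 : Set (Set ℂ), IsTiling n 𝒯 ∧ Equitransitive 𝒯 ∧
      ∀ R : Set ℂ, IsOmino n R → ∃ T ∈ 𝒯, Congruent R T) := by
  have main : ∀ 𝒯 : Set (Set ℂ), IsTiling 32 𝒯 → ∀ T ∈ 𝒯, ¬ Congruent (region P) T := by
    rintro 𝒯 h T hT ⟨g, rfl⟩
    apply not_mem (IsTiling.move h g.symm)
    refine ⟨g '' region P, hT, ?_⟩
    simp only [image_image, IsometryEquiv.symm_apply_apply, image_id']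
  have hom : IsOmino 32 (region P) := ⟨P_disk, P, P_card, rfl⟩
  refine ⟨⟨region P, hom, main⟩, fun hall => ?_⟩
  obtain ⟨𝒯, h, -, hocc⟩ := hall 32 (by norm_num)
  obtain ⟨T, hT, hc⟩ := hocc (region P) hom
  exact main 𝒯 h T hT hc

end Pool.Agent.Results.MP_60dc17_co.CavityOmino
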